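import Pool.Agent.W2helper34.GR.Val
import Pool.Agent.W2helper34.GR.Trunc

/-!
# Semilinear groups and the tree of `GL_2` of a division ring with a discrete valuation
-/

set_option autoImplicit false
set_option linter.unusedSectionVars false

namespace Pool.Agent.W2helper34.GS

open Pool.Agent.Y110.FJ (ClosedE)
open Pool.Agent.W2helper34.GR

/-- a group of automorphisms of a ring acts on the invertible `2 × 2` matrices, entry by entry -/
noncomputable def semi (A R : Type) [Group A] [Ring R] [MulSemiringAction A R] :
    A →* MulAut (GG R) where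
  toFun a := Units.mapEquiv
    ((MulSemiringAction.toRingEquiv A R a).mapMatrix (m := Fin 2)).toMulEquiv
  map_one' := by
    ext g i j
    show (1 : A) • g.val i j = g.val i j
    rw [one_smul]
  map_mul' a b := by
    ext g i j
    show (a * b) • g.val i j = a • b • g.val i j
    rw [mul_smul]

theorem semi_val {A R : Type} [Group A] [Ring R] [MulSemiringAction A R] (a : A) (g : GG R)
    (i j : Fin 2) : (semi A R a g).val i j = a • g.val i j := rfl

/-- the group of the semilinear automorphisms `v ↦ g (a v)` of the free module of rank two -/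
abbrev SL (A R : Type) [Group A] [Ring R] [MulSemiringAction A R] : Type := GG R ⋊[semi A R] A

/-- an equivariant homomorphism of rings gives a homomorphism of the semilinear groups -/
noncomputable def mapSL {A R S : Type} [Group A] [Ring R] [Ring S] [MulSemiringAction A R]
    [MulSemiringAction A S] (φ : R →+* S) (h : ∀ (a : A) (x : R), φ (a • x) = a • φ x) :
    SL A R →* SL A S :=
  SemidirectProduct.map (GGm φ) (MonoidHom.id A) (by
    intro a
    apply MonoidHom.ext
    intro g
    apply Units.ext
    ext i j
    exact h a (g.val i j))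

theorem mapSL_left {A R S : Type} [Group A] [Ring R] [Ring S] [MulSemiringAction A R]
    [MulSemiringAction A S] (φ : R →+* S) (h : ∀ (a : A) (x : R), φ (a • x) = a • φ x)
    (g : SL A R) (i j : Fin 2) : (mapSL φ h g).left.val i j = φ (g.left.val i j) := rfl

theorem mapSL_right {A R S : Type} [Group A] [Ring R] [Ring S] [MulSemiringAction A R]
    [MulSemiringAction A S] (φ : R →+* S) (h : ∀ (a : A) (x : R), φ (a • x) = a • φ x)
    (g : SL A R) : (mapSL φ h g).right = g.right := rfl

section tree

variable {A E : Type} [Group A] [DivisionRing E] [MulSemiringAction A E] {δ : DD E}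
  (hA : ∀ (a : A) (x : E), x ≠ 0 → δ.D (a • x) = δ.D x)

include hA in
theorem M_smul (a : A) {x : E} {n : ℤ} (h : δ.M x n) : δ.M (a • x) n := by
  intro hx
  have h1 : x ≠ 0 := by
    rintro rfl
    exact hx (smul_zero a)
  rw [hA a x h1]
  exact h h1

include hA in
theorem Bd_semi (a : A) {g : GG E} {n : ℤ} (h : Bd δ n g.val) : Bd δ n (semi A E a g).val :=
  fun i j => M_smul hA a (h i j)

include hA in
theorem HH_semi (a : A) {g : GG E} (h : g ∈ HH δ) : semi A E a g ∈ HH δ := by
  obtain ⟨n, h1, h2⟩ := h
  refine ⟨n, Bd_semi hA a h1, ?_⟩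
  rw [← map_inv]
  exact Bd_semi hA a h2

include hA in
theorem HH_semi_iff (a : A) {g : GG E} : semi A E a g ∈ HH δ ↔ g ∈ HH δ := by
  refine ⟨fun h => ?_, HH_semi hA a⟩
  have h1 := HH_semi hA a⁻¹ h
  rwa [← MulAut.mul_apply, ← map_mul, inv_mul_cancel, map_one, MulAut.one_apply] at h1

include hA in
theorem A1_semi (a : A) {z : GG E} (h : A1 δ z) : A1 δ (semi A E a z) := by
  obtain ⟨h1, n, h2, h3⟩ := h
  refine ⟨fun h => h1 ((HH_semi_iff hA a).mp h), n, Bd_semi hA a h2, ?_⟩
  rw [← map_inv]
  exact Bd_semi hA a h3

/-- the action on the vertices -/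
noncomputable def vact (s : SL A E) : VV δ → VV δ :=
  Quotient.map' (fun x => s.left * semi A E s.right x) (by
    intro x y h
    rw [QuotientGroup.leftRel_apply] at h ⊢
    have e : (s.left * semi A E s.right x)⁻¹ * (s.left * semi A E s.right y) =
        semi A E s.right (x⁻¹ * y) := by
      rw [map_mul, map_inv]
      group
    rw [e]
    exact HH_semi hA s.right h)

theorem vact_mk (s : SL A E) (x : GG E) :
    vact hA s (x : VV δ) = ((s.left * semi A E s.right x : GG E) : VV δ) := rfl

/-- the action of the semilinear group on the tree -/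
@[instance_reducible]
noncomputable def mact : MulAction (SL A E) (VV δ) where
  smul s v := vact hA s v
  one_smul v := by
    show vact hA 1 v = v
    induction v using QuotientGroup.induction_on with
    | H x =>
      rw [vact_mk, SemidirectProduct.one_left, SemidirectProduct.one_right, map_one, one_mul,
        MulAut.one_apply]
  mul_smul s t v := by
    show vact hA (s * t) v = vact hA s (vact hA t v)
    induction v using QuotientGroup.induction_on with
    | H x =>
      rw [vact_mk, vact_mk, vact_mk, SemidirectProduct.mul_left, SemidirectProduct.mul_right,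
        map_mul, MulAut.mul_apply, map_mul, mul_assoc]

theorem vact_adj (s : SL A E) {u v : VV δ} (h : adj δ u v) : adj δ (vact hA s u) (vact hA s v) := by
  obtain ⟨x, z, hz, rfl, rfl⟩ := h
  refine ⟨s.left * semi A E s.right x, semi A E s.right z, A1_semi hA _ hz, rfl, ?_⟩
  rw [vact_mk, map_mul, mul_assoc]

/-- the elements of the stabilizer of a vertex are bounded up to a shift -/
theorem stab_Bd (v : VV δ) : ∃ k : ℤ, ∀ s : SL A E, vact hA s v = v →
    ∃ n, Bd δ (n + k) s.left.val ∧ Bd δ (-n + k) (s.left⁻¹).val := by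
  induction v using QuotientGroup.induction_on with
  | H x =>
    obtain ⟨a, ha⟩ := exists_Bd δ x.val
    obtain ⟨b, hb⟩ := exists_Bd δ (x⁻¹).val
    refine ⟨a + b, fun s hs => ?_⟩
    have h1 : x⁻¹ * (s.left * semi A E s.right x) ∈ HH δ := by
      rw [← QuotientGroup.eq]
      exact hs.symm
    obtain ⟨n, h2, h3⟩ := h1
    have ha' : Bd δ a (semi A E s.right x).val := Bd_semi hA _ ha
    have hb' : Bd δ b ((semi A E s.right x)⁻¹).val := by
      rw [← map_inv]
      exact Bd_semi hA _ hb
    refine ⟨n, ?_, ?_⟩
    · have e : s.left = x * (x⁻¹ * (s.left * semi A E s.right x)) * (semi A E s.right x)⁻¹ := by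
        group
      rw [e, Units.val_mul, Units.val_mul]
      exact ((ha.mul h2).mul hb').mono (by omega)
    · have e : s.left⁻¹ = semi A E s.right x * (x⁻¹ * (s.left * semi A E s.right x))⁻¹ * x⁻¹ := by
        group
      rw [e, Units.val_mul, Units.val_mul]
      exact ((ha'.mul h3).mul hb).mono (by omega)

include hA in
/-- **Semilinear groups over a division ring with a discrete valuation.** -/
theorem main_val {C : ∀ (G : Type) [Group G], Prop} (hC : ClosedE C) {G : Type} [Group G]
    (ρ : G →* SL A E)
    (hpos : ∀ g i j, (ρ g).left.val i j ≠ 0 → 0 ≤ δ.D ((ρ g).left.val i j))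
    (h : ∀ k : ℤ, ∃ (P : Type) (_ : Group P) (f : G →* P), C P ∧
      ∀ g, Bd δ k (ρ g).left.val → f g = 1 → g = 1) : C G := by
  let _ : MulAction (SL A E) (VV δ) := mact hA
  let _ : MulAction G (VV δ) := MulAction.compHom (VV δ) ρ
  refine Pool.Agent.N24.TR.tree_local hC (isTree δ) (fun g u v h => vact_adj hA (ρ g) h)
    fun v => ?_
  obtain ⟨k, hk⟩ := stab_Bd hA v
  obtain ⟨P, _, f, hP, hf⟩ := h (k + k)
  refine ⟨P, inferInstance, f, hP, fun g hg h1 => hf g ?_ h1⟩
  obtain ⟨n, h2, h3⟩ := hk (ρ g) hg
  obtain ⟨i, j, hij⟩ := exists_ne ((ρ g).left)⁻¹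
  have h4 := h3 i j hij
  -- the inverse matrix belongs to an element of the group up to an automorphism
  have e1 : (ρ g).left⁻¹ = semi A E (ρ g).right (ρ g⁻¹).left := by
    rw [map_inv, SemidirectProduct.inv_left, ← MulAut.mul_apply, ← map_mul, mul_inv_cancel,
      map_one, MulAut.one_apply]
  have h5 : 0 ≤ δ.D (((ρ g).left⁻¹).val i j) := by
    rw [e1, semi_val] at hij ⊢
    have h6 : (ρ g⁻¹).left.val i j ≠ 0 := by
      intro h0
      rw [h0, smul_zero] at hij
      exact hij rfl
    rw [hA _ _ h6]
    exact hpos _ _ _ h6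
  exact h2.mono (by omega)

end tree

end Pool.Agent.W2helper34.GS
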