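import Pool.Agent.W2helper34.GS.Ore
import Pool.Agent.W2helper34.GR.Graded

/-!
# Semilinear groups over graded rings
-/

set_option autoImplicit false
set_option linter.unusedSectionVars false

namespace Pool.Agent.W2helper34.GS

open Pool.Agent.Y110.FJ (ClosedE)
open Pool.Agent.N506.EX
open Pool.Agent.W2helper6.FA
open Pool.Agent.W2helper34.GR
open Pool.Agent.W2helper34.GT (solv_ext C_quot_of_hom)
open Polynomial DirectSum

/-- a descending chain of normal subgroups with abelian factors -/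
theorem tower {C : ∀ (G : Type) [Group G], Prop} (hC : ClosedE C)
    (hS : ∀ (G : Type) [Group G], Group.IsSolvable G → C G) {G : Type} [Group G]
    (N : ℕ → Subgroup G) [hN : ∀ k, (N k).Normal] (hle : ∀ k, N (k + 1) ≤ N k)
    (hcomm : ∀ k, ∀ a ∈ N k, ∀ b ∈ N k, a * b * a⁻¹ * b⁻¹ ∈ N (k + 1)) (h0 : C (G ⧸ N 0)) :
    ∀ k, C (G ⧸ N k) := by
  intro k
  induction k with
  | zero => exact h0
  | succ k ih =>
    have hle' : N (k + 1) ≤ (N k).comap (MonoidHom.id G) := hle k
    have hnorm : ((N k).map (QuotientGroup.mk' (N (k + 1)))).Normal :=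
      (hN k).map _ (QuotientGroup.mk'_surjective _)
    refine solv_ext hC hS ((N k).map (QuotientGroup.mk' (N (k + 1)))) ?_
      (C_quot_of_hom hC _ (QuotientGroup.map (N (k + 1)) (N k) (MonoidHom.id G) hle') ih ?_ ?_)
    · refine Group.isSolvable_of_comm ?_
      rintro ⟨_, a, ha, rfl⟩ ⟨_, b, hb, rfl⟩
      apply Subtype.ext
      show QuotientGroup.mk' (N (k + 1)) a * QuotientGroup.mk' (N (k + 1)) b =
        QuotientGroup.mk' (N (k + 1)) b * QuotientGroup.mk' (N (k + 1)) a
      rw [← map_mul, ← map_mul, ← mul_inv_eq_one, ← map_inv, ← map_mul]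
      have h1 : a * b * (b * a)⁻¹ ∈ N (k + 1) := by
        have := hcomm k a ha b hb
        rwa [_root_.mul_inv_rev, ← mul_assoc]
      exact (QuotientGroup.eq_one_iff _).mpr h1
    · rintro _ ⟨a, ha, rfl⟩
      exact (QuotientGroup.eq_one_iff a).mpr ha
    · intro g hg
      obtain ⟨g, rfl⟩ := QuotientGroup.mk_surjective g
      exact ⟨g, (QuotientGroup.eq_one_iff g).mp hg, rfl⟩

section graded

variable {R ς A : Type} [Ring R] [SetLike ς R] [AddSubgroupClass ς R] (𝒜 : ℕ → ς) [GradedRing 𝒜]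
  [Group A] [MulSemiringAction A R] (hgr : ∀ (a : A) (i : ℕ) (x : R), x ∈ 𝒜 i → a • x ∈ 𝒜 i)

include hgr in
theorem decompose_smul (a : A) (x : R) (n : ℕ) :
    (decompose 𝒜 (a • x) n : R) = a • (decompose 𝒜 x n : R) := by
  induction x using DirectSum.Decomposition.inductionOn 𝒜 with
  | zero => rw [smul_zero, decompose_zero, DirectSum.zero_apply, ZeroMemClass.coe_zero, smul_zero]
  | homogeneous m =>
    rename_i i
    by_cases h : i = n
    · subst h
      rw [decompose_of_mem_same 𝒜 (hgr a i m m.2), decompose_of_mem_same 𝒜 m.2]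
    · rw [decompose_of_mem_ne 𝒜 (hgr a i m m.2) h, decompose_of_mem_ne 𝒜 m.2 h, smul_zero]
  | add m m' h1 h2 =>
    rw [smul_add, decompose_add, decompose_add, DirectSum.add_apply, DirectSum.add_apply,
      AddMemClass.coe_add, AddMemClass.coe_add, h1, h2, smul_add]

/-- the semilinear maps over the ring of the elements of degree zero -/
def degZero : Subgroup (SL A R) where
  carrier := {s | ∀ i j, s.left.val i j ∈ 𝒜 0 ∧ (s.left⁻¹).val i j ∈ 𝒜 0}
  one_mem' := by
    intro i j
    have h0 : (1 : Matrix (Fin 2) (Fin 2) R) i j ∈ 𝒜 0 := by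
      by_cases h : i = j
      · subst h
        rw [Matrix.one_apply_eq]
        exact SetLike.GradedOne.one_mem
      · rw [Matrix.one_apply_ne h]
        exact zero_mem _
    refine ⟨h0, ?_⟩
    rw [SemidirectProduct.one_left, inv_one]
    exact h0
  mul_mem' := by
    intro s t hs ht i j
    have hmul : ∀ g h : GG R, (∀ i j, g.val i j ∈ 𝒜 0) → (∀ i j, h.val i j ∈ 𝒜 0) →
        ∀ i j, (g * h).val i j ∈ 𝒜 0 := by
      intro g h hg hh i j
      rw [Units.val_mul, Matrix.mul_apply]
      refine sum_mem fun k _ => ?_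
      have := SetLike.GradedMul.mul_mem (A := 𝒜) (hg i k) (hh k j)
      rwa [add_zero] at this
    rw [SemidirectProduct.mul_left, _root_.mul_inv_rev, ← map_inv]
    exact ⟨hmul _ _ (fun i j => (hs i j).1) (fun i j => hgr _ _ _ (ht i j).1) i j,
      hmul _ _ (fun i j => hgr _ _ _ (ht i j).2) (fun i j => (hs i j).2) i j⟩
  inv_mem' := by
    intro s hs i j
    rw [SemidirectProduct.inv_left, ← map_inv, inv_inv]
    exact ⟨hgr _ _ _ (hs i j).2, hgr _ _ _ (hs i j).1⟩

variable {E : Type} [DivisionRing E] [MulSemiringAction A E] (ι : R →+* E)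

/-- the elements without terms of degree at most `k` -/
noncomputable def JJ (k : ℕ) : Ideal R where
  carrier := {r | ∀ n ≤ k, (theta 𝒜 ι r).coeff n = 0}
  zero_mem' := fun n _ => by rw [map_zero, coeff_zero]
  add_mem' := fun {a b} ha hb n hn => by rw [map_add, coeff_add, ha n hn, hb n hn, add_zero]
  smul_mem' := fun c r hr n hn => by
    rw [smul_eq_mul, map_mul, coeff_mul]
    refine Finset.sum_eq_zero fun p hp => ?_
    have h1 : p.1 + p.2 = n := Finset.HasAntidiagonal.mem_antidiagonal.mp hp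
    rw [hr p.2 (by omega), mul_zero]

instance (k : ℕ) : (JJ 𝒜 ι k).IsTwoSided where
  mul_mem_of_left {a} b ha := fun n hn => by
    rw [map_mul, coeff_mul]
    refine Finset.sum_eq_zero fun p hp => ?_
    have h1 : p.1 + p.2 = n := Finset.HasAntidiagonal.mem_antidiagonal.mp hp
    rw [ha p.1 (by omega), zero_mul]

theorem mem_JJ {k : ℕ} {r : R} : r ∈ JJ 𝒜 ι k ↔ ∀ n ≤ k, (theta 𝒜 ι r).coeff n = 0 := Iff.rfl

theorem JJ_mul {k : ℕ} {a b : R} (ha : a ∈ JJ 𝒜 ι k) (hb : b ∈ JJ 𝒜 ι k) :
    a * b ∈ JJ 𝒜 ι (k + 1) := by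
  intro n hn
  rw [map_mul, coeff_mul]
  refine Finset.sum_eq_zero fun p hp => ?_
  have h1 : p.1 + p.2 = n := Finset.HasAntidiagonal.mem_antidiagonal.mp hp
  by_cases h2 : p.1 ≤ k
  · rw [ha p.1 h2, zero_mul]
  · rw [hb p.2 (by omega), mul_zero]

variable (hιA : ∀ (a : A) (x : R), ι (a • x) = a • ι x)

include hgr hιA in
theorem theta_smul (a : A) (x : R) : theta 𝒜 ι (a • x) = a • theta 𝒜 ι x := by
  ext n
  rw [coeff_smul, theta_coeff, theta_coeff, decompose_smul 𝒜 hgr, hιA]

include hgr hιA in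
theorem JJ_smul {k : ℕ} {r : R} (a : A) (h : r ∈ JJ 𝒜 ι k) : a • r ∈ JJ 𝒜 ι k := by
  intro n hn
  rw [theta_smul 𝒜 hgr ι hιA, coeff_smul, h n hn, smul_zero]

/-- the matrices congruent to the unit matrix modulo the terms of degree greater than `k` -/
noncomputable def NN (k : ℕ) : Subgroup (SL A R) where
  carrier := {s | s.right = 1 ∧ GGm (Ideal.Quotient.mk (JJ 𝒜 ι k)) s.left = 1}
  one_mem' := ⟨rfl, by rw [SemidirectProduct.one_left, map_one]⟩
  mul_mem' := by
    rintro s t ⟨h1, h2⟩ ⟨h3, h4⟩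
    refine ⟨by rw [SemidirectProduct.mul_right, h1, h3, one_mul], ?_⟩
    rw [SemidirectProduct.mul_left, h1, map_one, MulAut.one_apply, map_mul, h2, h4, one_mul]
  inv_mem' := by
    rintro s ⟨h1, h2⟩
    refine ⟨by rw [SemidirectProduct.inv_right, h1, inv_one], ?_⟩
    rw [SemidirectProduct.inv_left, h1, inv_one, map_one, MulAut.one_apply, map_inv, h2, inv_one]

theorem mem_NN {k : ℕ} {s : SL A R} : s ∈ NN (A := A) 𝒜 ι k ↔
    s.right = 1 ∧ GGm (Ideal.Quotient.mk (JJ 𝒜 ι k)) s.left = 1 := Iff.rfl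

theorem GGm_iff {B D : Type} [Ring B] [Ring D] {φ : B →+* D} {g : GG B} :
    GGm φ g = 1 ↔ ∀ i j, φ ((g.val - 1) i j) = 0 := by
  constructor
  · intro h i j
    exact GGm_eq_one h i j
  · intro h
    apply Units.ext
    ext i j
    rw [GGm_val]
    have h1 := h i j
    rw [Matrix.sub_apply, map_sub, sub_eq_zero] at h1
    rw [h1, Units.val_one]
    by_cases hij : i = j
    · subst hij
      rw [Matrix.one_apply_eq, Matrix.one_apply_eq, map_one]
    · rw [Matrix.one_apply_ne hij, Matrix.one_apply_ne hij, map_zero]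

theorem GGm_mk_iff {k : ℕ} {g : GG R} : GGm (Ideal.Quotient.mk (JJ 𝒜 ι k)) g = 1 ↔
    ∀ i j, (g.val - 1) i j ∈ JJ 𝒜 ι k := by
  rw [GGm_iff]
  exact forall_congr' fun i => forall_congr' fun j => Ideal.Quotient.eq_zero_iff_mem

include hgr hιA in
theorem semi_NN {k : ℕ} {g : GG R} (a : A) (h : GGm (Ideal.Quotient.mk (JJ 𝒜 ι k)) g = 1) :
    GGm (Ideal.Quotient.mk (JJ 𝒜 ι k)) (semi A R a g) = 1 := by
  rw [GGm_mk_iff] at h ⊢
  intro i j
  have h1 := JJ_smul 𝒜 hgr ι hιA a (h i j)
  have e : (1 : Matrix (Fin 2) (Fin 2) R) i j = a • (1 : Matrix (Fin 2) (Fin 2) R) i j := by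
    by_cases hij : i = j
    · subst hij
      rw [Matrix.one_apply_eq, smul_one]
    · rw [Matrix.one_apply_ne hij, smul_zero]
  rw [Matrix.sub_apply, smul_sub] at h1
  rw [Matrix.sub_apply, semi_val, e]
  exact h1

include hgr hιA in
theorem NN_normal (k : ℕ) : (NN (A := A) 𝒜 ι k).Normal := by
  constructor
  rintro n ⟨h1, h2⟩ g
  refine ⟨?_, ?_⟩
  · rw [SemidirectProduct.mul_right, SemidirectProduct.mul_right, SemidirectProduct.inv_right, h1,
      mul_one, mul_inv_cancel]
  · rw [SemidirectProduct.mul_left, SemidirectProduct.mul_left, SemidirectProduct.mul_right, h1,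
      mul_one, SemidirectProduct.inv_left, ← MulAut.mul_apply, ← map_mul, mul_inv_cancel, map_one,
      MulAut.one_apply, map_mul, map_mul, semi_NN 𝒜 hgr ι hιA g.right h2, mul_one, map_inv,
      mul_inv_cancel]

theorem NN_le (k : ℕ) : NN (A := A) 𝒜 ι (k + 1) ≤ NN (A := A) 𝒜 ι k := by
  rintro s ⟨h1, h2⟩
  refine ⟨h1, ?_⟩
  rw [GGm_mk_iff] at h2 ⊢
  exact fun i j n hn => h2 i j n (by omega)

theorem NN_comm (k : ℕ) : ∀ a ∈ NN (A := A) 𝒜 ι k, ∀ b ∈ NN (A := A) 𝒜 ι k,
    a * b * a⁻¹ * b⁻¹ ∈ NN (A := A) 𝒜 ι (k + 1) := by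
  rintro a ⟨h1, h2⟩ b ⟨h3, h4⟩
  refine ⟨?_, ?_⟩
  · simp only [SemidirectProduct.mul_right, SemidirectProduct.inv_right, h1, h3, inv_one, mul_one]
  · have e : (a * b * a⁻¹ * b⁻¹).left = a.left * b.left * a.left⁻¹ * b.left⁻¹ := by
      simp only [SemidirectProduct.mul_left, SemidirectProduct.mul_right,
        SemidirectProduct.inv_left, SemidirectProduct.inv_right, h1, h3, inv_one, mul_one, map_one,
        MulAut.one_apply]
    rw [e, map_mul, map_mul, map_mul, map_inv, map_inv]
    -- commuting matrices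
    rw [GGm_mk_iff] at h2 h4
    obtain ⟨m, hm⟩ : ∃ m, m = a.left.val - 1 := ⟨_, rfl⟩
    obtain ⟨n, hn⟩ : ∃ n, n = b.left.val - 1 := ⟨_, rfl⟩
    have ea : a.left.val = 1 + m := by rw [hm]; abel
    have eb : b.left.val = 1 + n := by rw [hn]; abel
    rw [← hm] at h2
    rw [← hn] at h4
    have hmn : ∀ i j, (m * n) i j ∈ JJ 𝒜 ι (k + 1) := by
      intro i j
      rw [Matrix.mul_apply]
      exact Ideal.sum_mem _ fun l _ => JJ_mul 𝒜 ι (h2 i l) (h4 l j)
    have hnm : ∀ i j, (n * m) i j ∈ JJ 𝒜 ι (k + 1) := by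
      intro i j
      rw [Matrix.mul_apply]
      exact Ideal.sum_mem _ fun l _ => JJ_mul 𝒜 ι (h4 i l) (h2 l j)
    have h5 : GGm (Ideal.Quotient.mk (JJ 𝒜 ι (k + 1))) a.left *
        GGm (Ideal.Quotient.mk (JJ 𝒜 ι (k + 1))) b.left =
        GGm (Ideal.Quotient.mk (JJ 𝒜 ι (k + 1))) b.left *
        GGm (Ideal.Quotient.mk (JJ 𝒜 ι (k + 1))) a.left := by
      rw [← map_mul, ← map_mul]
      apply Units.ext
      ext i j
      rw [GGm_val, GGm_val, Ideal.Quotient.eq, Units.val_mul, Units.val_mul, ea, eb]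
      have e2 : ((1 + m) * (1 + n)) i j - ((1 + n) * (1 + m)) i j = (m * n) i j - (n * m) i j := by
        have e3 : (1 + m) * (1 + n) - (1 + n) * (1 + m) = m * n - n * m := by
          simp only [mul_add, add_mul, mul_one, one_mul]
          abel
        rw [← Matrix.sub_apply, ← Matrix.sub_apply, e3]
      rw [e2]
      exact Ideal.sub_mem _ (hmn i j) (hnm i j)
    rw [h5]
    group

include hgr hιA in
/-- **Semilinear groups over graded rings which embed in division rings.** -/
theorem graded_main {C : ∀ (G : Type) [Group G], Prop} (hC : ClosedE C)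
    (hS : ∀ (G : Type) [Group G], Group.IsSolvable G → C G) (hι : Function.Injective ι)
    (h0 : C (degZero 𝒜 hgr)) : C (SL A R) := by
  have hN := NN_normal 𝒜 hgr ι hιA
  have hq := tower hC hS (NN (A := A) 𝒜 ι) (NN_le 𝒜 ι) (NN_comm 𝒜 ι) (by
    -- the component of degree zero
    have hp : ∀ (a : A) (x : R), GradedRing.projZeroRingHom 𝒜 (a • x) =
        a • GradedRing.projZeroRingHom 𝒜 x := fun a x => decompose_smul 𝒜 hgr a x 0
    have hmem : ∀ x : R, GradedRing.projZeroRingHom 𝒜 x ∈ 𝒜 0 := fun x => (decompose 𝒜 x 0).2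
    have hJ : ∀ x : R, x ∈ JJ 𝒜 ι 0 ↔ GradedRing.projZeroRingHom 𝒜 x = 0 := by
      intro x
      rw [mem_JJ]
      constructor
      · intro h
        have h1 := h 0 le_rfl
        rw [theta_coeff] at h1
        exact (map_eq_zero_iff ι hι).mp h1
      · intro h n hn
        obtain rfl : n = 0 := by omega
        rw [theta_coeff]
        have h1 : (decompose 𝒜 x 0 : R) = 0 := h
        rw [h1, map_zero]
    have hker : ∀ s : SL A R, mapSL (GradedRing.projZeroRingHom 𝒜) hp s = 1 ↔
        s ∈ NN (A := A) 𝒜 ι 0 := by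
      intro s
      rw [mem_NN, GGm_mk_iff]
      constructor
      · intro h
        have h1 : s.right = 1 := congrArg SemidirectProduct.right h
        have h2 : GGm (GradedRing.projZeroRingHom 𝒜) s.left = 1 :=
          congrArg SemidirectProduct.left h
        exact ⟨h1, fun i j => (hJ _).mpr (GGm_eq_one h2 i j)⟩
      · rintro ⟨h1, h2⟩
        have h3 : GGm (GradedRing.projZeroRingHom 𝒜) s.left = 1 :=
          GGm_iff.mpr fun i j => (hJ _).mp (h2 i j)
        exact SemidirectProduct.ext h3 h1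
    refine C_quot_of_hom hC _ ((mapSL (GradedRing.projZeroRingHom 𝒜) hp).codRestrict
      (degZero 𝒜 hgr) ?_) h0 ?_ ?_
    · intro s i j
      refine ⟨hmem _, ?_⟩
      have : (mapSL (GradedRing.projZeroRingHom 𝒜) hp s).left⁻¹ =
          GGm (GradedRing.projZeroRingHom 𝒜) s.left⁻¹ := (map_inv _ _).symm
      rw [this, GGm_val]
      exact hmem _
    · intro s hs
      exact Subtype.ext ((hker s).mpr hs)
    · intro s hs
      exact (hker s).mp (congrArg Subtype.val hs))
  have hc : ∀ s : E, (Polynomial.C s : E[X]) * X = X * Polynomial.C ((RingEquiv.refl E) s) := by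
    intro s
    exact (X_mul_C s).symm
  have hdeg : IsDegree fun p : E[X] => (p.natDegree : ℤ) := by
    constructor
    · intro p q hp hq
      show ((p * q).natDegree : ℤ) = p.natDegree + q.natDegree
      rw [natDegree_mul hp hq]
      push_cast
      rfl
    · intro p q _ _ _
      have := natDegree_add_le p q
      show ((p + q).natDegree : ℤ) ≤ max (p.natDegree : ℤ) (q.natDegree : ℤ)
      omega
  have hLO : LO E[X] := ore_LO (hc' (σ := RingEquiv.refl E) hc) poly_basis LO_div
  refine ore_main hC hLO hdeg (fun _ _ => Int.natCast_nonneg _) (A := A) ?_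
    (mapSL (theta 𝒜 ι) (theta_smul 𝒜 hgr ι hιA)) fun k => ?_
  · intro a p
    have h1 : a • p = p.map (MulSemiringAction.toRingHom A E a) := by
      have := Polynomial.smul_eq_map E a
      exact congrFun this p
    show ((a • p).natDegree : ℤ) = (p.natDegree : ℤ)
    rw [h1, natDegree_map_eq_of_injective (MulSemiringAction.toRingEquiv A E a).injective]
  · refine ⟨SL A R ⧸ NN (A := A) 𝒜 ι k, inferInstance, QuotientGroup.mk' _, hq k,
      fun s hs h1 => ?_⟩
    obtain ⟨h2, h3⟩ := (QuotientGroup.eq_one_iff s).mp h1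
    refine SemidirectProduct.ext (Units.ext ?_) h2
    rw [SemidirectProduct.one_left, Units.val_one, ← sub_eq_zero]
    ext i j
    rw [GGm_mk_iff] at h3
    have h4 : theta 𝒜 ι ((s.left.val - 1) i j) = 0 := by
      ext n
      rw [coeff_zero]
      by_cases hn : n ≤ k
      · exact h3 i j n hn
      · rw [Matrix.sub_apply, map_sub, coeff_sub]
        have h5 : (theta 𝒜 ι (s.left.val i j)).coeff n = 0 := by
          by_cases h6 : theta 𝒜 ι (s.left.val i j) = 0
          · rw [h6, coeff_zero]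
          · have h7 : ((theta 𝒜 ι (s.left.val i j)).natDegree : ℤ) ≤ k := hs i j h6
            exact coeff_eq_zero_of_natDegree_lt (by omega)
        have h8 : (theta 𝒜 ι ((1 : Matrix (Fin 2) (Fin 2) R) i j)).coeff n = 0 := by
          by_cases hij : i = j
          · subst hij
            rw [Matrix.one_apply_eq, map_one, coeff_one, if_neg (by omega)]
          · rw [Matrix.one_apply_ne hij, map_zero, coeff_zero]
        rw [h5, h8, sub_zero]
    exact theta_injective 𝒜 ι hι (by rw [h4, Matrix.zero_apply, map_zero])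

end graded

end Pool.Agent.W2helper34.GS
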